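import Pool.Agent.ATP.Stmts
import Pool.Agent.Helper72_AT2.ORT
import Pool.Agent.Helper57_K9.Gq9
import Pool.Agent.Helper97_K9.NZA
import Pool.Agent.Helper51_AWC.Basic

/-!
# Squad ATP, row UOP: the idempotents over different conjugates of `U` are orthogonal
-/

set_option autoImplicit false

open scoped BigOperators

noncomputable section

namespace Pool.Agent.PP.TP.H41

open Pool.Agent.Helper51_AWC Pool.Agent.Helper79_WRA Pool.Agent.PP Pool.Agent.PP.KF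
open Pool.Agent.PP.K9 Pool.Agent.PP.K9.H97 Pool.Agent.PP.H75 Pool.Agent.PP.T3 Pool.Agent.PP.T2
open Pool.Agent.PP.TB

attribute [local instance] Ideal.Quotient.field

section grp

variable {G : Type} [Group G]

theorem uw_mono {n : ℕ} {A B : Subgroup G} (h : A ≤ B) : Uw n A ≤ Uw n B :=
  Subgroup.closure_mono (Set.image_mono h)

theorem uw_dvd {m n : ℕ} (h : n ∣ m) (A : Subgroup G) : Uw m A ≤ Uw n A := by
  obtain ⟨k, rfl⟩ := h
  unfold Uw
  rw [Subgroup.closure_le]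
  rintro _ ⟨x, hx, rfl⟩
  apply Subgroup.subset_closure
  refine ⟨x ^ k, A.pow_mem hx k, ?_⟩
  show (x ^ k) ^ n = x ^ (n * k)
  rw [← pow_mul, mul_comm]

theorem card_sub {A B : Subgroup G} (h : A ≤ B) : Nat.card (A.subgroupOf B) = Nat.card A :=
  Nat.card_congr (Subgroup.subgroupOfEquivOfLe h).toEquiv

theorem pow_mem_zc [Finite G] {ℓ p : ℕ} [hl : Fact ℓ.Prime] {D : Subgroup G} (hD : IsPGroup ℓ D)
    (hidx : Nat.card D ≤ ℓ ^ p * Nat.card (Zc D)) {z : G} (hz : z ∈ D) :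
    z ^ (ℓ ^ p) ∈ Zc D := by
  have hle : Zc D ≤ D := inf_le_left
  have hn : ((Zc D).subgroupOf D).Normal := by
    refine ⟨?_⟩
    intro n hn g
    rw [Subgroup.mem_subgroupOf] at hn ⊢
    have h1 := Subgroup.mem_centralizer_iff.1 hn.2 (g : G) g.2
    have h2 : ((g * n * g⁻¹ : D) : G) = n := by
      show (g : G) * n * (g : G)⁻¹ = n
      rw [h1]
      group
    rw [h2]
    exact hn
  have h1 := Subgroup.pow_index_mem ((Zc D).subgroupOf D) (⟨z, hz⟩ : D)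
  have h2 := Subgroup.index_mul_card ((Zc D).subgroupOf D)
  rw [card_sub hle] at h2
  obtain ⟨m, hm⟩ := IsPGroup.iff_card.1 hD
  have h3 : ((Zc D).subgroupOf D).index ∣ ℓ ^ m := by
    rw [← hm, ← h2]
    exact dvd_mul_right _ _
  obtain ⟨i, -, hi⟩ := (Nat.dvd_prime_pow hl.out).1 h3
  have hc : 0 < Nat.card (Zc D) := Nat.card_pos
  have h4 : ℓ ^ i ≤ ℓ ^ p := by
    rw [← h2, hi] at hidx
    exact Nat.le_of_mul_le_mul_right hidx hc
  have h5 : i ≤ p := (Nat.pow_le_pow_iff_right hl.out.one_lt).1 h4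
  rw [hi] at h1
  have h6 : z ^ (ℓ ^ i) ∈ Zc D := h1
  have h7 : z ^ (ℓ ^ p) = (z ^ (ℓ ^ i)) ^ (ℓ ^ (p - i)) := by
    rw [← pow_mul, ← pow_add]
    congr 2
    omega
  rw [h7]
  exact Subgroup.pow_mem _ h6 _

theorem cent_sup {Q S : Subgroup G} {t : G} :
    t ∈ Subgroup.centralizer ((S ⊔ Q : Subgroup G) : Set G) ↔
      t ∈ Subgroup.centralizer (S : Set G) ∧ t ∈ Subgroup.centralizer (Q : Set G) := by
  constructor
  · intro h
    have hS : S ≤ S ⊔ Q := le_sup_left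
    have hQ : Q ≤ S ⊔ Q := le_sup_right
    exact ⟨Subgroup.centralizer_le (show (S : Set G) ⊆ ((S ⊔ Q : Subgroup G) : Set G) from hS) h,
      Subgroup.centralizer_le (show (Q : Set G) ⊆ ((S ⊔ Q : Subgroup G) : Set G) from hQ) h⟩
  · rintro ⟨h1, h2⟩
    have h3 : S ≤ Subgroup.centralizer ({t} : Set G) := by
      intro s hs
      rw [Subgroup.mem_centralizer_iff]
      rintro _ rfl
      exact (Subgroup.mem_centralizer_iff.1 h1 s hs).symm
    have h4 : Q ≤ Subgroup.centralizer ({t} : Set G) := by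
      intro s hs
      rw [Subgroup.mem_centralizer_iff]
      rintro _ rfl
      exact (Subgroup.mem_centralizer_iff.1 h2 s hs).symm
    rw [Subgroup.mem_centralizer_iff]
    intro s hs
    have h5 := Subgroup.mem_centralizer_iff.1 (sup_le h3 h4 hs) t rfl
    exact h5.symm

end grp

section

variable {F G : Type} [Field F] [Group G] [Finite G]

/-- a block under a nonzero idempotent -/
theorem blk_under {X : Subgroup G} {E : G → F} (hE : Ix X E) (h0 : E ≠ 0) :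
    ∃ b : G → F, Bx X b ∧ mulF E b = b := by
  obtain ⟨b₀, hb₀, hgb, -⟩ := K9.H24.exists_blk (L := fun a : X → F => a) rfl
    (fun a b => rfl) hE.idem (by
      intro h1
      exact h0 (H75.eq_of_res hE.supp (fun _ _ => rfl) h1))
  refine ⟨H75.ext0 X b₀, ?_, ?_⟩
  · refine ⟨H75.ext0_supp _ b₀, ?_⟩
    have h1 : (fun t : X => H75.ext0 X b₀ t) = b₀ := funext (H75.ext0_apply _ b₀)
    rw [h1]
    exact hb₀
  · have h1 : (fun t : X => H75.ext0 X b₀ t) = b₀ := funext (H75.ext0_apply _ b₀)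
    apply H75.eq_of_res (H75.mulF_supp _ hE.supp (H75.ext0_supp _ b₀)) (H75.ext0_supp _ b₀)
    rw [H75.mulF_res _ _ hE.supp, h1, hgb]

theorem ix_top {e : G → F} (he : IsIdem e) : Ix (⊤ : Subgroup G) e := by
  have hs : ∀ x, x ∉ (⊤ : Subgroup G) → e x = 0 := fun x hx => absurd (Subgroup.mem_top x) hx
  refine ⟨hs, ?_, ?_⟩
  · intro x y
    exact he.1 _ _
  · rw [← H75.mulF_res _ _ hs, he.2]

/-- a good subgroup of maximal order -/
theorem tp_under {ℓ : ℕ} (hF : GoodF ℓ F) {e : G → F} (he : IsCl e) {V D W : Subgroup G}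
    {w : G → F} (hV : Tp ℓ e V) (hcard : Nat.card D = Nat.card V) (hD : IsPGroup ℓ D)
    (hDW : D ≤ Subgroup.centralizer (W : Set G))
    (hw : Bx (Subgroup.centralizer (W : Set G)) w) (hew : mulF (br W e) w = w)
    (hg : br D w ≠ 0) :
    Tp ℓ (fun t : Subgroup.centralizer (W : Set G) => w t)
      (D.subgroupOf (Subgroup.centralizer (W : Set G))) := by
  refine ⟨hD.comap_of_injective _ (Subgroup.subtype_injective _), ?_, ?_⟩
  · obtain ⟨t, ht, ht0⟩ := C2.H3.gd_of_br' hg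
    have htW : t ∈ Subgroup.centralizer (W : Set G) := by
      by_contra h
      exact ht0 (hw.supp t h)
    refine ⟨⟨t, htW⟩, ?_, ht0⟩
    rw [Subgroup.mem_centralizer_iff]
    intro x hx
    exact Subtype.ext (Subgroup.mem_centralizer_iff.1 ht x hx)
  · intro Q hQ hgQ
    rw [card_sub hDW, hcard]
    have hbrcl : IsCl (fun t : Subgroup.centralizer (W : Set G) => br W e t) := by
      intro x y
      change br W e (y * x * (y : G)⁻¹) = br W e x
      rw [H66.br_of_mem x.2, H66.br_of_mem (mul_mem (mul_mem y.2 x.2) (inv_mem y.2))]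
      exact he _ _
    have hbrs : ∀ x, x ∉ Subgroup.centralizer (W : Set G) → br W e x = 0 :=
      fun x hx => H66.br_of_not_mem hx
    have h1 := gd_of_mul hF hbrcl hw.blk.1.1
      (by rw [← H75.mulF_res _ _ hbrs, hew]) hQ hgQ
    obtain ⟨t, ht, ht0⟩ := gd_map h1
    have h2 := hV.mx _ (hQ.map (Subgroup.centralizer (W : Set G)).subtype) ⟨t, ht, fun h0 => ht0 (by
      by_cases htc : t ∈ Subgroup.centralizer (W : Set G)
      · rw [H66.br_of_mem htc, h0]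
      · exact hbrs t htc)⟩
    rw [Subgroup.card_map_of_injective (Subgroup.subtype_injective _)] at h2
    exact h2

end

/-- the pair `(D, γ)` over `(T, b₃)` given by one conjugate of `f` -/
theorem side (zcf : ZcfStmt) (pcj : PcjStmt) (pxb : PxbStmt) (pmk : PmkStmt) {ℓ : ℕ}
    [Fact ℓ.Prime] {M : Ideal (integralClosure ℤ ℂ)} [M.IsMaximal]
    (hM : (ℓ : integralClosure ℤ ℂ) ∈ M) {G : Type} [Group G] [Finite G] {a : ℕ} {e : G → FF M}
    {V : Subgroup G} {f : G → FF M} (hf : Fz ℓ a e V f) {Q T : Subgroup G} {g : G}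
    (hb : Bt (Uz ℓ a V) Q g) {b b₃ : G → FF M} (hQb : Pq ℓ Q b) (hTb : Pq ℓ T b₃)
    (hQT : Nl Q b T b₃) (hTU : T ≤ Subgroup.centralizer (conjS g (Uz ℓ a V) : Set G))
    (hfb : mulF (br Q (cj g f)) b = b) :
    ∃ (y : G) (γ : G → FF M), Pq ℓ (conjS y V) γ ∧ Le ℓ T b₃ (conjS y V) γ ∧
      Uz ℓ a (conjS y V) = conjS g (Uz ℓ a V) := by
  have hF : GoodF ℓ (FF M) := H50.fld ℓ Fact.out M hM
  have hzU := (zcf G V).2.1 ℓ a
  have hX : ∀ x, x ∈ Subgroup.normalizer (conjS g (Uz ℓ a V) : Set G) ↔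
      g⁻¹ * x * g ∈ Subgroup.normalizer (Uz ℓ a V : Set G) := fun x => T3.H62.mem_norm_conjS x
  have hfa : Bx (Subgroup.normalizer (conjS g (Uz ℓ a V) : Set G)) (cj g f) :=
    T3.H62.bx_cj hX hf.blk
  have hCN : Subgroup.centralizer (Q : Set G) ≤
      Subgroup.normalizer (conjS g (Uz ℓ a V) : Set G) :=
    (Subgroup.centralizer_le (show ((conjS g (Uz ℓ a V) : Subgroup G) : Set G) ⊆ Q from hb.1)).trans
      (T3.H85.cent_le_norm _)
  have h3 : mulF (br T (cj g f)) b₃ = b₃ :=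
    (pxb ℓ (FF M) hF G _ (cj g f) hfa.ix T b₃ hTb (hTU.trans (T3.H85.cent_le_norm _)) Q b hQb hCN
      (Le.one hQb hTb hQT)).1 hfb
  -- conjugate by `g⁻¹`
  obtain ⟨pcj1, -, pcj3, -⟩ := pcj ℓ (FF M) G g⁻¹
  have h4 : Pq ℓ (conjS g⁻¹ T) (cj g⁻¹ b₃) := pcj1 T b₃ hTb
  have hgg : ∀ A : Subgroup G, conjS g⁻¹ (conjS g A) = A := by
    intro A
    rw [conjS_conjS, inv_mul_cancel, conjS_one]
  have hgg' : ∀ A : Subgroup G, conjS g (conjS g⁻¹ A) = A := by
    intro A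
    rw [conjS_conjS, mul_inv_cancel, conjS_one]
  have h5 : conjS g⁻¹ T ≤ Subgroup.centralizer (Uz ℓ a V : Set G) := by
    rw [T3.H62.cent_conjS] at hTU
    have h6 := conjS_mono (g := g⁻¹).2 hTU
    rwa [hgg] at h6
  have hUT : Uz ℓ a V ≤ conjS g⁻¹ T := by
    have h6 : conjS g (Uz ℓ a V) ≤ T := hb.1.trans hQT.le
    have h7 := conjS_mono (g := g⁻¹).2 h6
    rwa [hgg] at h7
  have h6 : mulF (br (conjS g⁻¹ T) f) (cj g⁻¹ b₃) = cj g⁻¹ b₃ := by
    have h7 := congrArg (cj g⁻¹) h3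
    rw [cj_mulF, ← T2.H72.br_cj, cj_inv_cj] at h7
    exact h7
  obtain ⟨x, hx, γ', h8, h9⟩ := pmk ℓ M hM G (Subgroup.normalizer (Uz ℓ a V : Set G)) V f hf.blk
    (hzU.2.1.trans (T3.H85.cent_le_norm _)) hf.tp (conjS g⁻¹ T) (cj g⁻¹ b₃) h4
    (h5.trans (T3.H85.cent_le_norm _))
    ((Subgroup.centralizer_le (show (Uz ℓ a V : Set G) ⊆ (conjS g⁻¹ T : Subgroup G) from hUT)).trans
      (T3.H85.cent_le_norm _)) h6
  obtain ⟨pcj1', -, pcj3', -⟩ := pcj ℓ (FF M) G g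
  refine ⟨g * x, cj g γ', ?_, ?_, ?_⟩
  · rw [← conjS_conjS]
    exact pcj1' _ _ h8
  · have h10 := pcj3' _ _ _ _ h9
    rw [hgg', cj_cj_inv, conjS_conjS] at h10
    exact h10
  · rw [((zcf G V).2.1 ℓ a).2.2.2.1, ← conjS_conjS, mem_normalizer_iff_conjS.1 hx]

/-- UOP -/
theorem uop (zcf : ZcfStmt) (pcj : PcjStmt) (pex : PexStmt) (pun : PunStmt) (pxb : PxbStmt)
    (pmk : PmkStmt) (pcd : PcdStmt) (fmg : FmgStmt) : UopStmt := by
  intro ℓ _ M _ hM G _ _ a p e V hU f hf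
  have hF : GoodF ℓ (FF M) := H50.fld ℓ Fact.out M hM
  refine ⟨hf.blk.ix, hf.supp, hf.und, ?_⟩
  intro Q hQ g h hbg hbh hne
  obtain ⟨hI1, hE1⟩ := T2.H72.conj_data hF hU.blk.1.1 hf.blk hf.und hQ hbg
  obtain ⟨hI2, -⟩ := T2.H72.conj_data hF hU.blk.1.1 hf.blk hf.und hQ hbh
  by_contra hcon
  have hs : ∀ x, x ∉ Subgroup.centralizer (Q : Set G) →
      mulF (br Q (cj g f)) (br Q (cj h f)) x = 0 := H75.mulF_supp _ hI1.supp hI2.supp
  have hcomm := hI1.comm hI2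
  have hmm : mulF (mulF (br Q (cj g f)) (br Q (cj h f)))
      (mulF (br Q (cj g f)) (br Q (cj h f))) = mulF (br Q (cj g f)) (br Q (cj h f)) := by
    rw [H20.mulF_assoc, ← H20.mulF_assoc (br Q (cj h f)) (br Q (cj g f)), ← hcomm,
      H20.mulF_assoc (br Q (cj g f)) (br Q (cj h f)), hI2.mul, ← H20.mulF_assoc, hI1.mul]
  have hI : Ix (Subgroup.centralizer (Q : Set G)) (mulF (br Q (cj g f)) (br Q (cj h f))) := by
    refine ⟨hs, ?_, ?_⟩
    · intro x y
      have h1 : cj (y : G)⁻¹ (mulF (br Q (cj g f)) (br Q (cj h f))) =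
          mulF (br Q (cj g f)) (br Q (cj h f)) := by
        rw [cj_mulF, hI1.inv (inv_mem y.2), hI2.inv (inv_mem y.2)]
      have h2 := congrFun h1 x
      rw [cj, inv_inv] at h2
      exact h2
    · rw [← H75.mulF_res _ _ hs, hmm]
  obtain ⟨b, hBb, hEb⟩ := blk_under hI hcon
  have h1b : mulF (br Q (cj g f)) b = b := by
    conv_lhs => rw [← hEb]
    rw [← H20.mulF_assoc, ← H20.mulF_assoc, hI1.mul, hEb]
  have h2b : mulF (br Q (cj h f)) b = b := by
    conv_lhs => rw [← hEb]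
    rw [hcomm, ← H20.mulF_assoc, ← H20.mulF_assoc, hI2.mul, ← hcomm, hEb]
  have heb : mulF (br Q e) b = b := by
    rw [← h1b, ← H20.mulF_assoc, hE1]
  have hQb : Pq ℓ Q b := ⟨hQ, hBb⟩
  -- a defect group of `b`
  obtain ⟨P, hP⟩ := K9.H57.exists_tp (ℓ := ℓ) hBb.blk.2.1
  obtain ⟨S, hSdef⟩ : ∃ S : Subgroup G, S = P.map (Subgroup.centralizer (Q : Set G)).subtype :=
    ⟨_, rfl⟩
  have hSP : S.subgroupOf (Subgroup.centralizer (Q : Set G)) = P := by
    rw [hSdef]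
    exact Subgroup.comap_map_eq_self_of_injective (Subgroup.subtype_injective _) P
  have hSC : S ≤ Subgroup.centralizer (Q : Set G) := by
    rw [hSdef]
    exact Subgroup.map_subtype_le P
  have hSpg : IsPGroup ℓ S := by
    rw [hSdef]
    exact hP.pg.map _
  have hTpg : IsPGroup ℓ (S ⊔ Q : Subgroup G) :=
    hSpg.to_sup_of_normal_right' hQ (hSC.trans (T3.H85.cent_le_norm _))
  have hTQ : (S ⊔ Q : Subgroup G) ≤ Q ⊔ Subgroup.centralizer (Q : Set G) :=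
    sup_le (hSC.trans le_sup_right) le_sup_left
  have hbinv : ∀ t ∈ Q ⊔ Subgroup.centralizer (Q : Set G), ∀ x, b (t * x * t⁻¹) = b x := by
    intro t ht
    exact (cj_eq_iff _ _).1 ((pcj ℓ (FF M) G t).2.2.2 Q b hQb ht)
  have hIT : Ix (Subgroup.centralizer ((S ⊔ Q : Subgroup G) : Set G)) (br (S ⊔ Q) b) := by
    refine C2.H3.ix_br hF hTpg ?_ (fun t ht x => hbinv t (hTQ ht) x) hBb.mul
    intro y hy x
    exact hbinv y (Subgroup.mem_sup_right (cent_sup.1 hy).2) x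
  have hbrS : br (S ⊔ Q) b = br S b := by
    funext t
    by_cases ht : t ∈ Subgroup.centralizer (Q : Set G)
    · by_cases hts : t ∈ Subgroup.centralizer (S : Set G)
      · rw [H66.br_of_mem hts, H66.br_of_mem (cent_sup.2 ⟨hts, ht⟩)]
      · rw [H66.br_of_not_mem hts, H66.br_of_not_mem fun h => hts (cent_sup.1 h).1]
    · rw [H66.br_of_not_mem fun h => ht (cent_sup.1 h).2]
      by_cases hts : t ∈ Subgroup.centralizer (S : Set G)
      · rw [H66.br_of_mem hts, hBb.supp t ht]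
      · rw [H66.br_of_not_mem hts]
  have hbr0 : br (S ⊔ Q) b ≠ 0 := by
    rw [hbrS, hSdef]
    exact C2.H3.br_ne_of_gd (gd_map hP.gd)
  obtain ⟨b₃, hB3, hE3⟩ := blk_under hIT hbr0
  rw [hbrS] at hE3
  obtain ⟨hTb, hNl, hD⟩ := pcd ℓ (FF M) hF G Q S b b₃ hQb hSC (by rw [hSP]; exact hP) hB3 hE3
  have hTU : ∀ x : G, Bt (Uz ℓ a V) Q x →
      (S ⊔ Q : Subgroup G) ≤ Subgroup.centralizer (conjS x (Uz ℓ a V) : Set G) := by
    intro x hx
    exact sup_le (hSC.trans (Subgroup.centralizer_le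
      (show ((conjS x (Uz ℓ a V) : Subgroup G) : Set G) ⊆ Q from hx.1))) hx.2
  obtain ⟨y₁, γ₁, hp1, hl1, hu1⟩ := side zcf pcj pxb pmk hM hf hbg hQb hTb hNl (hTU g hbg) h1b
  obtain ⟨y₂, γ₂, hp2, hl2, hu2⟩ := side zcf pcj pxb pmk hM hf hbh hQb hTb hNl (hTU h hbh) h2b
  -- the subgroup `W`
  obtain ⟨W, hWdef⟩ : ∃ W : Subgroup G, W = Uw (ℓ ^ p) (Zc S) := ⟨_, rfl⟩
  have hWS : W ≤ S := by
    rw [hWdef]
    refine (Subgroup.closure_le _).2 ?_
    rintro _ ⟨z, hz, rfl⟩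
    exact S.pow_mem hz.1 _
  have key : ∀ (y : G) (γ : G → FF M) (U' : Subgroup G), Pq ℓ (conjS y V) γ →
      Le ℓ (S ⊔ Q) b₃ (conjS y V) γ → Uz ℓ a (conjS y V) = U' →
      W ≤ Zc (conjS y V) ∧ U' ≤ W := by
    intro y γ U' h1 h2 h3
    obtain ⟨h4, h5⟩ := hD _ γ h1 h2
    have hSD : S ≤ conjS y V := by
      rw [← h4]
      exact inf_le_left
    have hidx : Nat.card (conjS y V) ≤ ℓ ^ p * Nat.card (Zc (conjS y V)) := by
      rw [(zcf G V).1.2.2.2.2.1, Helper51_AWC.card_conjS, Helper51_AWC.card_conjS]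
      exact hU.idx
    constructor
    · rw [hWdef]
      refine (Subgroup.closure_le _).2 ?_
      rintro _ ⟨z, hz, rfl⟩
      exact pow_mem_zc h1.pg hidx (hSD hz.1)
    · rw [← h3, hWdef]
      unfold Uz
      refine (uw_mono h5).trans (uw_dvd ?_ _)
      exact pow_dvd_pow ℓ (by have := hU.lt; omega)
  obtain ⟨hW1, hUW1⟩ := key y₁ γ₁ _ hp1 hl1 hu1
  obtain ⟨hW2, hUW2⟩ := key y₂ γ₂ _ hp2 hl2 hu2
  obtain ⟨w, hWw, hlw, -⟩ := pex ℓ (FF M) hF G (S ⊔ Q) b₃ hTb W (hWS.trans le_sup_left)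
  -- `w` is under `e`
  have hte : Ix (⊤ : Subgroup G) e := ix_top hU.blk.1
  have h3e : mulF (br (S ⊔ Q) e) b₃ = b₃ :=
    (pxb ℓ (FF M) hF G ⊤ e hte (S ⊔ Q) b₃ hTb le_top Q b hQb le_top (Le.one hQb hTb hNl)).1 heb
  have hwe : mulF (br W e) w = w :=
    (pxb ℓ (FF M) hF G ⊤ e hte (S ⊔ Q) b₃ hTb le_top W w hWw le_top hlw).2 h3e
  have tp : ∀ (y : G) (γ : G → FF M), Pq ℓ (conjS y V) γ →
      Le ℓ (S ⊔ Q) b₃ (conjS y V) γ → W ≤ Zc (conjS y V) →
      conjS y V ≤ Subgroup.centralizer (W : Set G) ∧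
      Tp ℓ (fun t : Subgroup.centralizer (W : Set G) => w t)
        ((conjS y V).subgroupOf (Subgroup.centralizer (W : Set G))) := by
    intro y γ h1 h2 h3
    have h4 : conjS y V ≤ Subgroup.centralizer (W : Set G) := by
      refine ((zcf G (conjS y V)).1.2.1).trans (Subgroup.centralizer_le ?_)
      exact h3
    refine ⟨h4, tp_under hF hU.blk.1.1 hU.tp (Helper51_AWC.card_conjS _ _) h1.pg h4 hWw.blk hwe ?_⟩
    have h5 := (pun ℓ (FF M) hF G (conjS y V) γ h1 W w hWw (hlw.trans h2)).2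
      (h4.trans (T3.H85.cent_le_norm _))
    intro h6
    have h7 := h5.und
    rw [h6, H75.mulF_zero_left] at h7
    exact h1.blk.ne h7.symm
  obtain ⟨hc1, ht1⟩ := tp y₁ γ₁ hp1 hl1 hW1
  obtain ⟨hc2, ht2⟩ := tp y₂ γ₂ hp2 hl2 hW2
  obtain ⟨c, hc⟩ := (fmg ℓ M hM _ _ hWw.blk.blk _ ht1).1 _ ht2.pg ht2.gd
  have hle : conjS y₂ V ≤ conjS (c : G) (conjS y₁ V) := by
    intro x hx
    have h1 := hc (show (⟨x, hc2 hx⟩ : Subgroup.centralizer (W : Set G)) ∈
      (conjS y₂ V).subgroupOf (Subgroup.centralizer (W : Set G)) from hx)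
    rw [Helper51_AWC.mem_conjS] at h1 ⊢
    exact h1
  have heq : conjS y₂ V = conjS (c : G) (conjS y₁ V) := by
    apply Subgroup.eq_of_le_of_card_ge hle
    rw [Helper51_AWC.card_conjS, Helper51_AWC.card_conjS, Helper51_AWC.card_conjS]
  apply hne
  rw [← hu2, heq, ((zcf G (conjS y₁ V)).2.1 ℓ a).2.2.2.1, hu1]
  symm
  apply mem_normalizer_iff_conjS.1
  apply T3.H85.cent_le_norm
  exact Subgroup.centralizer_le (show ((conjS g (Uz ℓ a V) : Subgroup G) : Set G) ⊆ W from hUW1) c.2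

end Pool.Agent.PP.TP.H41
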